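import Pool.Agent.Helper53.PF.Asm

/-!
# MP_ad0dc2_nt: no second polynomial family of small degree

Let `n` be a rational number that is not a cube.  If `x, y, z` are polynomials over `ℚ` of degree at
most 8, not all constant, with `x³ + y³ + z³ = n`, then `n = 2 c³` and `(x, y, z)` is, up to order,
`(c (1 - 6 h³), c (1 + 6 h³), -6 c h²)` with `c ∈ ℚ`, `h ∈ ℚ[X]`.
-/

set_option autoImplicit false

namespace Pool.Agent.Results.MP_ad0dc2_nt.PolynomialFamilies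

open Polynomial

theorem result : ∀ n : ℚ, (∀ a : ℚ, a ^ 3 ≠ n) → ∀ x y z : ℚ[X],
    x.natDegree ≤ 8 → y.natDegree ≤ 8 → z.natDegree ≤ 8 →
    ¬ (x.natDegree = 0 ∧ y.natDegree = 0 ∧ z.natDegree = 0) →
    x ^ 3 + y ^ 3 + z ^ 3 = C n →
    ∃ (c : ℚ) (h : ℚ[X]), n = 2 * c ^ 3 ∧
      ((x = C c * (1 - 6 * h ^ 3) ∧ y = C c * (1 + 6 * h ^ 3) ∧ z = C (-6 * c) * h ^ 2) ∨
       (x = C c * (1 - 6 * h ^ 3) ∧ z = C c * (1 + 6 * h ^ 3) ∧ y = C (-6 * c) * h ^ 2) ∨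
       (y = C c * (1 - 6 * h ^ 3) ∧ z = C c * (1 + 6 * h ^ 3) ∧ x = C (-6 * c) * h ^ 2)) :=
  fun n hn x y z hx hy hz hnc h => PF.final n hn x y z hx hy hz hnc h

end Pool.Agent.Results.MP_ad0dc2_nt.PolynomialFamilies
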