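import Pool.Agent.Helper92.PV.Asm
import Pool.Agent.Helper92.PW.Skew

/-!
# MP_ad0dc2_nt: exponent `17/20 + ε` for the number of integer solutions of `x³ + y³ + z³ = k`

For every integer `k` that is not a cube and every `ε > 0` there is `C` such that for every real `Z ≥ 1` the equation
`x³ + y³ + z³ = k` has at most `C Z^(17/20 + ε)` integer solutions with `|z| ≤ Z` (`x, y` arbitrary).
-/

set_option autoImplicit false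

namespace Pool.Agent.Results.MP_ad0dc2_nt.SeventeenTwentieths

theorem result : ∀ k : ℤ, (∀ m : ℤ, m ^ 3 ≠ k) → ∀ ε : ℝ, 0 < ε → ∃ C : ℝ, ∀ Z : ℝ, 1 ≤ Z →
    {p : ℤ × ℤ × ℤ | p.1 ^ 3 + p.2.1 ^ 3 + p.2.2 ^ 3 = k ∧ |(p.2.2 : ℝ)| ≤ Z}.Finite ∧
    (({p : ℤ × ℤ × ℤ | p.1 ^ 3 + p.2.1 ^ 3 + p.2.2 ^ 3 = k ∧ |(p.2.2 : ℝ)| ≤ Z}.ncard : ℕ) : ℝ) ≤
      C * Z ^ (17 / 20 + ε : ℝ) :=
  Pool.Agent.Helper92.PV.asm Pool.Agent.Helper92.PW.aSK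

end Pool.Agent.Results.MP_ad0dc2_nt.SeventeenTwentieths
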